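import Pool.Agent.X51.Bal.Sphere

/-!
# The balanced `4`-sphere: suspension of the join of two circles cut into `16` octahedra
-/

set_option autoImplicit false

namespace Pool.Agent.X51.Bal

open Finset

/-- vertices -/
inductive Vx
  | u (i : Fin 4) | v (i : Fin 4) | p (i : Fin 4) | q (i : Fin 4) | w (i j : Fin 4) | n (s : Bool)
  deriving DecidableEq, Fintype

/-- index of a facet -/
abbrev Ix := Fin 4 × Fin 4 × Bool × Bool × Bool × Bool

/-- `0` or `1` -/
def sh (b : Bool) : Fin 4 := if b then 1 else 0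

/-- the vertex of colour `k` of the facet `a` -/
def vtx (a : Ix) (k : Fin 5) : Vx :=
  match k with
  | 0 => Vx.w a.1 a.2.1
  | 1 => Vx.u (a.1 + sh a.2.2.1)
  | 2 => Vx.v (a.2.1 + sh a.2.2.2.1)
  | 3 => if a.2.2.2.2.1 then Vx.q a.2.1 else Vx.p a.1
  | 4 => Vx.n a.2.2.2.2.2

/-- colours -/
def col : Vx → Fin 5
  | Vx.w _ _ => 0
  | Vx.u _ => 1
  | Vx.v _ => 2
  | Vx.p _ => 3
  | Vx.q _ => 3
  | Vx.n _ => 4

/-- facets -/
def fac (a : Ix) : Finset Vx := univ.image (vtx a)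

/-- the neighbour of a facet across the ridge opposite to its vertex of colour `k` -/
def nbc (k : Fin 5) (a : Ix) : Ix :=
  match k with
  | 0 => if a.2.2.2.2.1 then
      (if a.2.2.1 then a.1 + 1 else a.1 - 1, a.2.1, !a.2.2.1, a.2.2.2.1, a.2.2.2.2.1, a.2.2.2.2.2)
      else (a.1, if a.2.2.2.1 then a.2.1 + 1 else a.2.1 - 1, a.2.2.1, !a.2.2.2.1, a.2.2.2.2.1,
        a.2.2.2.2.2)
  | 1 => (a.1, a.2.1, !a.2.2.1, a.2.2.2.1, a.2.2.2.2.1, a.2.2.2.2.2)
  | 2 => (a.1, a.2.1, a.2.2.1, !a.2.2.2.1, a.2.2.2.2.1, a.2.2.2.2.2)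
  | 3 => (a.1, a.2.1, a.2.2.1, a.2.2.2.1, !a.2.2.2.2.1, a.2.2.2.2.2)
  | 4 => (a.1, a.2.1, a.2.2.1, a.2.2.2.1, a.2.2.2.2.1, !a.2.2.2.2.2)

/-- sign of a facet -/
def sgn (a : Ix) : ℤ :=
  (if a.2.2.1 then -1 else 1) * (if a.2.2.2.1 then -1 else 1) * (if a.2.2.2.2.1 then -1 else 1) *
    (if a.2.2.2.2.2 then -1 else 1)

theorem col_vtx : ∀ (a : Ix) (k : Fin 5), col (vtx a k) = k := by decide +kernel

theorem nbc_nbc : ∀ (k : Fin 5) (a : Ix), nbc k (nbc k a) = a := by decide +kernel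

theorem nbc_ne : ∀ (k : Fin 5) (a : Ix), vtx (nbc k a) k ≠ vtx a k := by decide +kernel

theorem nbc_vtx : ∀ (k : Fin 5) (a : Ix) (l : Fin 5), l ≠ k → vtx (nbc k a) l = vtx a l := by
  decide +kernel

theorem sgn_nbc : ∀ (k : Fin 5) (a : Ix), sgn (nbc k a) = - sgn a := by decide +kernel

theorem mem_fac {a : Ix} {x : Vx} : x ∈ fac a ↔ vtx a (col x) = x := by
  unfold fac
  rw [Finset.mem_image]
  constructor
  · rintro ⟨k, -, rfl⟩
    rw [col_vtx]
  · intro h
    exact ⟨col x, Finset.mem_univ _, h⟩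

/-! ### coordinates -/

/-- unit vectors of the square -/
def dir (i : Fin 4) : Fin 2 → ℤ :=
  match i with
  | 0 => ![1, 0]
  | 1 => ![0, 1]
  | 2 => ![-1, 0]
  | 3 => ![0, -1]

/-- the vector with the given two planar parts and last coordinate -/
def vec (x y : Fin 2 → ℤ) (z : ℤ) : Fin 5 → ℤ := ![x 0, x 1, y 0, y 1, z]

/-- positions of the vertices -/
def pos : Vx → Fin 5 → ℤ
  | Vx.u i => vec (33 • dir i) 0 0
  | Vx.v j => vec 0 (33 • dir j) 0
  | Vx.p i => vec (22 • (dir i + dir (i + 1))) 0 0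
  | Vx.q j => vec 0 (22 • (dir j + dir (j + 1))) 0
  | Vx.w i j => vec (12 • (dir i + dir (i + 1))) (12 • (dir j + dir (j + 1))) 0
  | Vx.n s => vec 0 0 (if s then 1 else -1)

/-- supporting functional of a facet -/
def lin (a : Ix) : Fin 5 → ℤ :=
  vec (4 • dir (a.1 + sh a.2.2.1) + (if a.2.2.2.2.1 then (1 : ℤ) else 2) • dir (a.1 + sh (!a.2.2.1)))
    (4 • dir (a.2.1 + sh a.2.2.2.1) +
      (if a.2.2.2.2.1 then (2 : ℤ) else 1) • dir (a.2.1 + sh (!a.2.2.2.1)))
    (if a.2.2.2.2.2 then 132 else -132)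

/-- inner product -/
def ip (x y : Fin 5 → ℤ) : ℤ := x 0 * y 0 + x 1 * y 1 + x 2 * y 2 + x 3 * y 3 + x 4 * y 4

theorem ip_on : ∀ (a : Ix) (k : Fin 5), ip (lin a) (pos (vtx a k)) = 132 := by decide +kernel

theorem ip_off : ∀ (a : Ix) (x : Vx), vtx a (col x) ≠ x → ip (lin a) (pos x) < 132 := by
  decide +kernel

theorem fac_card : ∀ a : Ix, (fac a).card = 5 := by
  intro a
  unfold fac
  rw [Finset.card_image_of_injective, Finset.card_univ, Fintype.card_fin]
  intro k l h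
  have := congrArg col h
  rwa [col_vtx, col_vtx] at this

theorem convexity : Convexity (fun x k => (pos x k : ℝ)) fac (fun a k => (lin a k : ℝ) / 132)
    (fun a x => nbc (col x) a) where
  card := fac_card
  on := by
    intro a x hx
    rw [mem_fac] at hx
    have h := ip_on a (col x)
    rw [hx] at h
    rw [Fin.sum_univ_five]
    unfold ip at h
    have h2 : ((lin a 0 : ℝ) * pos x 0 + lin a 1 * pos x 1 + lin a 2 * pos x 2 +
        lin a 3 * pos x 3 + lin a 4 * pos x 4) = 132 := by exact_mod_cast h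
    linarith
  off := by
    intro a x hx
    rw [mem_fac] at hx
    have h := ip_off a x hx
    rw [Fin.sum_univ_five]
    unfold ip at h
    have h2 : ((lin a 0 : ℝ) * pos x 0 + lin a 1 * pos x 1 + lin a 2 * pos x 2 +
        lin a 3 * pos x 3 + lin a 4 * pos x 4) < 132 := by exact_mod_cast h
    linarith
  nb_sub := by
    intro a x hx y hy
    rw [Finset.mem_erase, mem_fac] at hy
    rw [mem_fac] at hx ⊢
    rw [nbc_vtx, hy.2]
    intro hc
    apply hy.1
    rw [← hy.2, hc, hx]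
  nb_not := by
    intro a x hx
    rw [mem_fac] at hx ⊢
    intro h
    apply nbc_ne (col x) a
    rw [h, hx]

instance : Nonempty Ix := ⟨(0, 0, false, false, false, false)⟩

theorem isSphere : Nonempty (realization {s : Finset Vx | ∃ a, s ⊆ fac a} ≃ₜ
    Metric.sphere (0 : EuclideanSpace ℝ (Fin 5)) 1) :=
  sphere_of_convexity convexity

end Pool.Agent.X51.Bal
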