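import Pool.Agent.X51.Bal.Rel

/-!
# The kernel element
-/

set_option autoImplicit false

namespace Pool.Agent.X51.Bal

open Finset

namespace Rel

variable {R : Type*} [CommRing R] {x : Vx → R} (h : Rel x)

include h

theorem sq_w (c : Vx → R) (i j : Fin 4) :
    (∑ v, c v * x v) * (((∑ v, c v * x v) - 2 * (c (Vx.n true) - c (Vx.n false)) * x (Vx.n true)) *
      x (Vx.w i j)) =
    2 * ((c (Vx.u i) - c (Vx.u (i + 1))) * (c (Vx.v j) - c (Vx.v (j + 1))) *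
        (x (Vx.u i) * x (Vx.v j) * x (Vx.w i j)) +
      (c (Vx.v j) - c (Vx.v (j + 1))) * (c (Vx.p i) - c (Vx.q j)) *
        (x (Vx.v j) * x (Vx.p i) * x (Vx.w i j)) +
      (c (Vx.u i) - c (Vx.u (i + 1))) * (c (Vx.p i) - c (Vx.q j)) *
        (x (Vx.u i) * x (Vx.p i) * x (Vx.w i j))) := by
  have e := h.lin_w c i j
  have s1 := h.sq (Vx.u i)
  have s2 := h.sq (Vx.v j)
  have s3 := h.sq (Vx.p i)
  have s4 := h.sq (Vx.n true)
  set L := ∑ v, c v * x v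
  linear_combination (L - 2 * (c (Vx.n true) - c (Vx.n false)) * x (Vx.n true)) * e +
    ((c (Vx.u i) - c (Vx.u (i + 1))) * x (Vx.u i) + (c (Vx.v j) - c (Vx.v (j + 1))) * x (Vx.v j) +
        (c (Vx.p i) - c (Vx.q j)) * x (Vx.p i) +
        (c (Vx.n true) - c (Vx.n false)) * x (Vx.n true)) * e +
    (c (Vx.u i) - c (Vx.u (i + 1))) ^ 2 * x (Vx.w i j) * s1 +
    (c (Vx.v j) - c (Vx.v (j + 1))) ^ 2 * x (Vx.w i j) * s2 +
    (c (Vx.p i) - c (Vx.q j)) ^ 2 * x (Vx.w i j) * s3 -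
    (c (Vx.n true) - c (Vx.n false)) ^ 2 * x (Vx.w i j) * s4

theorem key (c : Vx → R) (y : Fin 4 → Fin 4 → R)
    (hA : ∀ i, ∑ j, y i j * ((c (Vx.u i) - c (Vx.u (i + 1))) * (c (Vx.v j) - c (Vx.v (j + 1)))) = 0)
    (hB : ∀ j, ∑ i, y i j * ((c (Vx.u i) - c (Vx.u (i + 1))) * (c (Vx.v j) - c (Vx.v (j + 1)))) = 0)
    (hC : ∀ i, ∑ j, y i j * ((c (Vx.v j) - c (Vx.v (j + 1))) * (c (Vx.p i) - c (Vx.q j))) =
      ∑ j, y 0 j * ((c (Vx.v j) - c (Vx.v (j + 1))) * (c (Vx.p 0) - c (Vx.q j))))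
    (hD : ∀ j, ∑ i, y i j * ((c (Vx.u i) - c (Vx.u (i + 1))) * (c (Vx.p i) - c (Vx.q j))) =
      ∑ i, y i 0 * ((c (Vx.u i) - c (Vx.u (i + 1))) * (c (Vx.p i) - c (Vx.q 0)))) :
    (∑ v, c v * x v) * (((∑ v, c v * x v) - 2 * (c (Vx.n true) - c (Vx.n false)) * x (Vx.n true)) *
      ∑ i, ∑ j, y i j * x (Vx.w i j)) = 0 := by
  set L := ∑ v, c v * x v with hL
  set α : Fin 4 → R := fun i => c (Vx.u i) - c (Vx.u (i + 1)) with hα
  set β : Fin 4 → R := fun j => c (Vx.v j) - c (Vx.v (j + 1)) with hβ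
  set γ : Fin 4 → Fin 4 → R := fun i j => c (Vx.p i) - c (Vx.q j) with hγ
  have h1 : L * ((L - 2 * (c (Vx.n true) - c (Vx.n false)) * x (Vx.n true)) *
      ∑ i, ∑ j, y i j * x (Vx.w i j)) = ∑ i, ∑ j, y i j * (L * ((L -
        2 * (c (Vx.n true) - c (Vx.n false)) * x (Vx.n true)) * x (Vx.w i j))) := by
    simp only [Finset.mul_sum]
    refine Finset.sum_congr rfl fun i _ => Finset.sum_congr rfl fun j _ => by ring
  rw [h1]
  have h2 : ∀ i j, y i j * (L * ((L -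
        2 * (c (Vx.n true) - c (Vx.n false)) * x (Vx.n true)) * x (Vx.w i j))) =
      2 * (y i j * (α i * β j) * (x (Vx.u i) * x (Vx.v 0) * x (Vx.w i 0)) +
        y i j * (α i * β j) * (x (Vx.u 0) * x (Vx.v j) * x (Vx.w 0 j)) -
        y i j * (α i * β j) * (x (Vx.u 0) * x (Vx.v 0) * x (Vx.w 0 0)) +
        y i j * (β j * γ i j) * (x (Vx.v 0) * x (Vx.p i) * x (Vx.w i 0)) +
        y i j * (α i * γ i j) * (x (Vx.u 0) * x (Vx.p 0) * x (Vx.w 0 j))) := by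
    intro i j
    have e := h.sq_w c i j
    rw [← hL] at e
    rw [e, h.N_eq i j, h.M_eq i j, h.K_eq i j]
    ring
  simp only [h2, ← Finset.mul_sum, Finset.sum_add_distrib, Finset.sum_sub_distrib]
  have t1 : ∑ i, ∑ j, y i j * (α i * β j) * (x (Vx.u i) * x (Vx.v 0) * x (Vx.w i 0)) = 0 := by
    refine Finset.sum_eq_zero fun i _ => ?_
    rw [← Finset.sum_mul, hA, zero_mul]
  have t2 : ∑ i, ∑ j, y i j * (α i * β j) * (x (Vx.u 0) * x (Vx.v j) * x (Vx.w 0 j)) = 0 := by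
    rw [Finset.sum_comm]
    refine Finset.sum_eq_zero fun i _ => ?_
    rw [← Finset.sum_mul, hB, zero_mul]
  have t3 : ∑ i, ∑ j, y i j * (α i * β j) * (x (Vx.u 0) * x (Vx.v 0) * x (Vx.w 0 0)) = 0 := by
    refine Finset.sum_eq_zero fun i _ => ?_
    rw [← Finset.sum_mul, hA, zero_mul]
  have t4 : ∑ i, ∑ j, y i j * (β j * γ i j) * (x (Vx.v 0) * x (Vx.p i) * x (Vx.w i 0)) = 0 := by
    have : ∀ i, ∑ j, y i j * (β j * γ i j) * (x (Vx.v 0) * x (Vx.p i) * x (Vx.w i 0)) =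
        (∑ j, y 0 j * (β j * γ 0 j)) * (x (Vx.v 0) * x (Vx.p i) * x (Vx.w i 0)) := by
      intro i
      rw [← Finset.sum_mul, hC]
    simp only [this]
    rw [← Finset.mul_sum, h.sumM, mul_zero]
  have t5 : ∑ i, ∑ j, y i j * (α i * γ i j) * (x (Vx.u 0) * x (Vx.p 0) * x (Vx.w 0 j)) = 0 := by
    rw [Finset.sum_comm]
    have : ∀ j, ∑ i, y i j * (α i * γ i j) * (x (Vx.u 0) * x (Vx.p 0) * x (Vx.w 0 j)) =
        (∑ i, y i 0 * (α i * γ i 0)) * (x (Vx.u 0) * x (Vx.p 0) * x (Vx.w 0 j)) := by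
      intro i
      rw [← Finset.sum_mul, hD]
    simp only [this]
    rw [← Finset.mul_sum, h.sumK, mul_zero]
  rw [t1, t2, t3, t4, t5]
  ring

end Rel

/-- the linear system for `y` -/
theorem exists_y {K : Type*} [Field K] (α β : Fin 4 → K) (γ : Fin 4 → Fin 4 → K) :
    ∃ y : Fin 4 → Fin 4 → K, y 0 0 = 0 ∧ y ≠ 0 ∧
      (∀ i, ∑ j, y i j * (α i * β j) = 0) ∧ (∀ j, ∑ i, y i j * (α i * β j) = 0) ∧
      (∀ i, ∑ j, y i j * (β j * γ i j) = ∑ j, y 0 j * (β j * γ 0 j)) ∧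
      (∀ j, ∑ i, y i j * (α i * γ i j) = ∑ i, y i 0 * (α i * γ i 0)) := by
  let Φ : (Fin 4 → Fin 4 → K) →ₗ[K] (Fin 4 → K) × (Fin 4 → K) × (Fin 3 → K) × (Fin 3 → K) × K :=
    { toFun := fun y => (fun i => ∑ j, y i j * (α i * β j), fun j => ∑ i, y i j * (α i * β j),
        fun i => ∑ j, y i.succ j * (β j * γ i.succ j) - ∑ j, y 0 j * (β j * γ 0 j),
        fun j => ∑ i, y i j.succ * (α i * γ i j.succ) - ∑ i, y i 0 * (α i * γ i 0), y 0 0)
      map_add' := by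
        intro y z
        simp only [Pi.add_apply, add_mul, Finset.sum_add_distrib, Prod.mk_add_mk, Prod.mk.injEq]
        refine ⟨rfl, rfl, ?_, ?_, trivial⟩ <;> (funext k; simp only [Pi.add_apply]; ring)
      map_smul' := by
        intro a y
        simp only [Pi.smul_apply, smul_eq_mul, mul_assoc, ← Finset.mul_sum, RingHom.id_apply,
          Prod.smul_mk, Prod.mk.injEq]
        refine ⟨rfl, rfl, ?_, ?_, trivial⟩ <;>
          (funext k; simp only [Pi.smul_apply, smul_eq_mul]; ring) }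
  have hker : LinearMap.ker Φ ≠ ⊥ := by
    apply LinearMap.ker_ne_bot_of_finrank_lt
    simp [Module.finrank_prod, Module.finrank_pi_fintype]
  obtain ⟨y, hy, hy0⟩ := (Submodule.ne_bot_iff _).mp hker
  rw [LinearMap.mem_ker] at hy
  simp only [Φ, LinearMap.coe_mk, AddHom.coe_mk, Prod.mk_eq_zero] at hy
  obtain ⟨h1, h2, h3, h4, h5⟩ := hy
  refine ⟨y, h5, hy0, fun i => congrFun h1 i, fun j => congrFun h2 j, fun i => ?_, fun j => ?_⟩
  · refine Fin.cases rfl (fun i => ?_) i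
    exact sub_eq_zero.mp (congrFun h3 i)
  · refine Fin.cases rfl (fun j => ?_) j
    exact sub_eq_zero.mp (congrFun h4 j)

end Pool.Agent.X51.Bal
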