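import Pool.Agent.X51.Bal.Functional
import Pool.Agent.X51.Bal.Key

/-!
# Failure of the weak Lefschetz property
-/

set_option autoImplicit false

namespace Pool.Agent.X51.Bal

open Finset MvPolynomial

universe t

theorem sh_inj : ∀ p p' : Bool, sh p = sh p' → p = p' := by decide

theorem vtx_inj {a b : Ix} (h : vtx a = vtx b) : a = b := by
  obtain ⟨i, j, p, q, r, s⟩ := a
  obtain ⟨i', j', p', q', r', s'⟩ := b
  have h0 := congrFun h 0
  have h1 := congrFun h 1
  have h2 := congrFun h 2
  have h3 := congrFun h 3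
  have h4 := congrFun h 4
  simp only [vtx, Vx.w.injEq, Vx.u.injEq, Vx.v.injEq, Vx.n.injEq] at h0 h1 h2 h3 h4
  obtain ⟨rfl, rfl⟩ := h0
  subst h4
  have hp : p = p' := sh_inj _ _ (add_left_cancel h1)
  have hq : q = q' := sh_inj _ _ (add_left_cancel h2)
  have hr : r = r' := by
    cases r <;> cases r' <;> simp at h3 ⊢
  rw [hp, hq, hr]

variable {K : Type t} [Field K]

theorem fac_prod (a : Ix) : (∏ k, X (vtx a k) : MvPolynomial Vx K) = ∏ v ∈ fac a, X v := by
  unfold fac
  rw [Finset.prod_image]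
  intro k _ l _ h
  have := congrArg col h
  rwa [col_vtx, col_vtx] at this

/-- value of the degree functional on facets -/
theorem D_fac (a : Ix) : D K (∏ k, X (vtx a k)) = (sgn a : K) := by
  rw [fac_prod, prod_X, D_apply, Finset.sum_eq_single a]
  · rw [coeff_monomial, if_pos rfl, mul_one]
  · intro b _ hb
    rw [coeff_monomial, if_neg, mul_zero]
    intro h
    apply hb
    apply vtx_inj
    funext k
    have h1 := DFunLike.congr_fun h (vtx b k)
    rw [ind_apply, ind_apply, if_pos (mem_fac.mpr (by rw [col_vtx]) : vtx b k ∈ fac b)] at h1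
    by_cases h2 : vtx b k ∈ fac a
    · have := mem_fac.mp h2
      rw [col_vtx] at this
      exact this.symm
    · rw [if_neg h2] at h1
      omega
  · intro hcon
    exact absurd (Finset.mem_univ _) hcon

namespace Rel

variable {R : Type*} [CommRing R] {x : Vx → R} (h : Rel x)

include h

theorem same (v w : Vx) (hc : col v = col w) : x v * x w = 0 := by
  by_cases hne : v = w
  · rw [hne]
    exact h.sq w
  · apply h.pair v w hne
    intro a ha hb
    rw [hc] at ha
    exact hne (ha.symm.trans hb)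

theorem sel_p (y : Fin 4 → Fin 4 → R) (i j : Fin 4) :
    (∑ a, ∑ b, y a b * x (Vx.w a b)) * (x (Vx.u i) * x (Vx.v (j + 1)) * x (Vx.p i)) =
      y i j * (x (Vx.w i j) * x (Vx.u i) * x (Vx.v (j + 1)) * x (Vx.p i)) +
      y i (j + 1) * (x (Vx.w i (j + 1)) * x (Vx.u i) * x (Vx.v (j + 1)) * x (Vx.p i)) := by
  rw [Finset.sum_mul, Finset.sum_eq_single i]
  · rw [sum4 _ j]
    have a2 := h.vw0 (j + 1) i (j + 2) (n12 j) (n121 j)
    have a3 := h.vw0 (j + 1) i (j + 3) (n13 j) (n131 j)
    linear_combination y i (j + 2) * x (Vx.u i) * x (Vx.p i) * a2 +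
      y i (j + 3) * x (Vx.u i) * x (Vx.p i) * a3
  · intro k _ hk
    rw [Finset.sum_mul]
    refine Finset.sum_eq_zero fun l _ => ?_
    have := h.pw0 i k l (Ne.symm hk)
    linear_combination y k l * x (Vx.u i) * x (Vx.v (j + 1)) * this
  · intro hcon
    exact absurd (Finset.mem_univ _) hcon

theorem sel_q (y : Fin 4 → Fin 4 → R) (i j : Fin 4) :
    (∑ a, ∑ b, y a b * x (Vx.w a b)) * (x (Vx.u (i + 1)) * x (Vx.v j) * x (Vx.q j)) =
      y i j * (x (Vx.w i j) * x (Vx.u (i + 1)) * x (Vx.v j) * x (Vx.q j)) +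
      y (i + 1) j * (x (Vx.w (i + 1) j) * x (Vx.u (i + 1)) * x (Vx.v j) * x (Vx.q j)) := by
  have h2 : ∀ a, (∑ b, y a b * x (Vx.w a b)) * (x (Vx.u (i + 1)) * x (Vx.v j) * x (Vx.q j)) =
      y a j * (x (Vx.w a j) * x (Vx.u (i + 1)) * x (Vx.v j) * x (Vx.q j)) := by
    intro a
    rw [Finset.sum_mul, Finset.sum_eq_single j]
    · ring
    · intro l _ hl
      have := h.qw0 j a l (Ne.symm hl)
      linear_combination y a l * x (Vx.u (i + 1)) * x (Vx.v j) * this
    · intro hcon
      exact absurd (Finset.mem_univ _) hcon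
  rw [Finset.sum_mul]
  simp only [h2]
  rw [sum4 _ i]
  have a2 := h.uw0 (i + 1) (i + 2) j (n12 i) (n121 i)
  have a3 := h.uw0 (i + 1) (i + 3) j (n13 i) (n131 i)
  linear_combination y (i + 2) j * x (Vx.v j) * x (Vx.q j) * a2 +
    y (i + 3) j * x (Vx.v j) * x (Vx.q j) * a3

/-- a linear form times `y` times a triangle of colours `1, 2, 3` -/
theorem lin_tri (c : Vx → R) (y : Fin 4 → Fin 4 → R) (g1 g2 g3 : Vx) (c1 : col g1 = 1)
    (c2 : col g2 = 2) (c3 : col g3 = 3) :
    (∑ v, c v * x v) * (∑ a, ∑ b, y a b * x (Vx.w a b)) * (x g1 * x g2 * x g3) =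
      (c (Vx.n true) - c (Vx.n false)) * (x (Vx.n true) * (∑ a, ∑ b, y a b * x (Vx.w a b)) *
        (x g1 * x g2 * x g3)) := by
  have h1 : (∑ v, c v * x v) * (∑ a, ∑ b, y a b * x (Vx.w a b)) * (x g1 * x g2 * x g3) =
      ∑ a, ∑ b, y a b * ((∑ v, c v * x v) * x (Vx.w a b)) * (x g1 * x g2 * x g3) := by
    rw [Finset.mul_sum, Finset.sum_mul]
    refine Finset.sum_congr rfl fun a _ => ?_
    rw [Finset.mul_sum, Finset.sum_mul]
    refine Finset.sum_congr rfl fun b _ => by ring
  have h2 : (c (Vx.n true) - c (Vx.n false)) * (x (Vx.n true) * (∑ a, ∑ b, y a b * x (Vx.w a b)) *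
        (x g1 * x g2 * x g3)) = ∑ a, ∑ b, y a b * ((c (Vx.n true) - c (Vx.n false)) *
          x (Vx.n true) * x (Vx.w a b)) * (x g1 * x g2 * x g3) := by
    have h3 : (c (Vx.n true) - c (Vx.n false)) * (x (Vx.n true) *
        (∑ a, ∑ b, y a b * x (Vx.w a b)) * (x g1 * x g2 * x g3)) =
        ((c (Vx.n true) - c (Vx.n false)) * x (Vx.n true)) *
        (∑ a, ∑ b, y a b * x (Vx.w a b)) * (x g1 * x g2 * x g3) := by ring
    rw [h3, Finset.mul_sum, Finset.sum_mul]
    refine Finset.sum_congr rfl fun a _ => ?_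
    rw [Finset.mul_sum, Finset.sum_mul]
    refine Finset.sum_congr rfl fun b _ => by ring
  rw [h1, h2]
  refine Finset.sum_congr rfl fun a _ => Finset.sum_congr rfl fun b _ => ?_
  rw [h.lin_w]
  have z1 := h.same (Vx.u a) g1 (by rw [c1]; rfl)
  have z2 := h.same (Vx.v b) g2 (by rw [c2]; rfl)
  have z3 := h.same (Vx.p a) g3 (by rw [c3]; rfl)
  linear_combination y a b * (c (Vx.u a) - c (Vx.u (a + 1))) * x (Vx.w a b) * x g2 * x g3 * z1 +
    y a b * (c (Vx.v b) - c (Vx.v (b + 1))) * x (Vx.w a b) * x g1 * x g3 * z2 +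
    y a b * (c (Vx.p a) - c (Vx.q b)) * x (Vx.w a b) * x g1 * x g2 * z3

end Rel

/-- the images of the variables -/
noncomputable def xx (K : Type t) [Field K] (v : Vx) : MvPolynomial Vx K ⧸ J K :=
  Ideal.Quotient.mk (J K) (X v)

theorem rel_xx : Rel (xx K) where
  pair := by
    intro v w hne hf
    unfold xx
    rw [← map_mul, Ideal.Quotient.eq_zero_iff_mem]
    refine Ideal.mem_sup_left (Ideal.subset_span ⟨{v, w}, ?_, ?_⟩)
    · rintro ⟨a, ha⟩
      exact hf a (mem_fac.mp (ha (by simp))) (mem_fac.mp (ha (by simp)))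
    · rw [Finset.prod_pair hne]
  theta := by
    intro k
    unfold xx
    rw [← map_sum, Ideal.Quotient.eq_zero_iff_mem]
    exact Ideal.mem_sup_right (Ideal.subset_span ⟨k, rfl⟩)

theorem lin_eq {f : MvPolynomial Vx K} (hf : f.IsHomogeneous 1) :
    f = ∑ v, C (f.coeff (Finsupp.single v 1)) * X v := by
  ext m
  rw [MvPolynomial.coeff_sum]
  simp only [coeff_C_mul, coeff_X]
  by_cases hm : ∃ v, m = Finsupp.single v 1
  · obtain ⟨v, rfl⟩ := hm
    rw [Finset.sum_eq_single v]
    · rw [if_pos rfl, mul_one]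
    · intro w _ hw
      rw [if_neg, mul_zero]
      intro h
      exact hw ((Finsupp.single_left_inj one_ne_zero).mp h)
    · intro hcon
      exact absurd (Finset.mem_univ _) hcon
  · have h1 : f.coeff m = 0 := by
      by_contra hne
      apply hm
      have h2 := hf hne
      rw [Finsupp.weight_apply, Finsupp.sum_fintype _ _ (by simp)] at h2
      simp only [Pi.one_apply, smul_eq_mul, mul_one] at h2
      obtain ⟨e, he⟩ : ∃ e, m e ≠ 0 := by
        by_contra hcon
        push Not at hcon
        rw [Finset.sum_eq_zero (fun e _ => hcon e)] at h2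
        omega
      refine ⟨e, ?_⟩
      have h6 := Finset.add_sum_erase univ (fun v => m v) (Finset.mem_univ e)
      have h7 : ∑ v ∈ univ.erase e, m v = 0 := by omega
      have h8 := Finset.sum_eq_zero_iff.mp h7
      ext v
      rw [Finsupp.single_apply]
      split_ifs with h9
      · subst h9
        omega
      · exact h8 v (Finset.mem_erase.mpr ⟨fun h => h9 h.symm, Finset.mem_univ _⟩)
    rw [h1]
    symm
    apply Finset.sum_eq_zero
    intro v _
    rw [if_neg, mul_zero]
    intro h2
    exact hm ⟨v, h2.symm⟩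

attribute [local irreducible] D

/-- a nonconstant `y` is detected by some triangle -/
theorem detect (y : Fin 4 → Fin 4 → K) (h0 : y 0 0 = 0) (hy : y ≠ 0) :
    ∃ g1 g2 g3 : Vx, col g1 = 1 ∧ col g2 = 2 ∧ col g3 = 3 ∧
      D K (X (Vx.n true) * (∑ a, ∑ b, C (y a b) * X (Vx.w a b)) * (X g1 * X g2 * X g3)) ≠ 0 := by
  have hrel := rel_xx (K := K)
  -- reduction to the two products
  have hred : ∀ f g : MvPolynomial Vx K, Ideal.Quotient.mk (J K) f = Ideal.Quotient.mk (J K) g →
      D K f = D K g := by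
    intro f g hfg
    have := D_mem (Ideal.Quotient.eq.mp hfg)
    rwa [map_sub, sub_eq_zero] at this
  have hC : ∀ (c : K) (f : MvPolynomial Vx K), D K (C c * f) = c * D K f := by
    intro c f
    rw [← smul_eq_C_mul, map_smul, smul_eq_mul]
  have vp : ∀ i j, D K (X (Vx.n true) * (∑ a, ∑ b, C (y a b) * X (Vx.w a b)) *
      (X (Vx.u i) * X (Vx.v (j + 1)) * X (Vx.p i))) = y i j - y i (j + 1) := by
    intro i j
    have e1 : Ideal.Quotient.mk (J K) (X (Vx.n true) * (∑ a, ∑ b, C (y a b) * X (Vx.w a b)) *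
      (X (Vx.u i) * X (Vx.v (j + 1)) * X (Vx.p i))) = Ideal.Quotient.mk (J K)
        (C (y i j) * (∏ k, X (vtx (i, j, false, true, false, true) k)) +
        C (y i (j + 1)) * (∏ k, X (vtx (i, j + 1, false, false, false, true) k))) := by
      have := hrel.sel_p (fun a b => Ideal.Quotient.mk (J K) (C (y a b))) i j
      simp only [xx] at this
      simp only [Fin.prod_univ_five, map_add, map_mul, map_sum, vtx, sh, if_true, if_false,
        Bool.false_eq_true, add_zero]
      linear_combination Ideal.Quotient.mk (J K) (X (Vx.n true)) * this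
    rw [hred _ _ e1, map_add, hC, hC, D_fac, D_fac]
    simp only [sgn, if_true, if_false, Bool.false_eq_true]
    push_cast
    ring
  have vq : ∀ i j, D K (X (Vx.n true) * (∑ a, ∑ b, C (y a b) * X (Vx.w a b)) *
      (X (Vx.u (i + 1)) * X (Vx.v j) * X (Vx.q j))) = y (i + 1) j - y i j := by
    intro i j
    have e1 : Ideal.Quotient.mk (J K) (X (Vx.n true) * (∑ a, ∑ b, C (y a b) * X (Vx.w a b)) *
      (X (Vx.u (i + 1)) * X (Vx.v j) * X (Vx.q j))) = Ideal.Quotient.mk (J K)
        (C (y i j) * (∏ k, X (vtx (i, j, true, false, true, true) k)) +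
        C (y (i + 1) j) * (∏ k, X (vtx (i + 1, j, false, false, true, true) k))) := by
      have := hrel.sel_q (fun a b => Ideal.Quotient.mk (J K) (C (y a b))) i j
      simp only [xx] at this
      simp only [Fin.prod_univ_five, map_add, map_mul, map_sum, vtx, sh, if_true, if_false,
        Bool.false_eq_true, add_zero]
      linear_combination Ideal.Quotient.mk (J K) (X (Vx.n true)) * this
    rw [hred _ _ e1, map_add, hC, hC, D_fac, D_fac]
    simp only [sgn, if_true, if_false, Bool.false_eq_true]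
    push_cast
    ring
  by_contra hcon
  push Not at hcon
  have s1 : ∀ i j, y i j = y i (j + 1) := fun i j => sub_eq_zero.mp
    ((vp i j).symm.trans (hcon _ _ _ rfl rfl rfl))
  have s2 : ∀ i j, y (i + 1) j = y i j := fun i j => sub_eq_zero.mp
    ((vq i j).symm.trans (hcon _ _ _ rfl rfl rfl))
  apply hy
  funext i j
  have a1 : ∀ i, y i 0 = 0 := by
    intro i
    fin_cases i
    · exact h0
    · exact (s2 0 0).trans h0
    · exact (s2 1 0).trans ((s2 0 0).trans h0)
    · exact (s2 2 0).trans ((s2 1 0).trans ((s2 0 0).trans h0))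
  fin_cases j
  · exact a1 i
  · exact (s1 i 0).symm.trans (a1 i)
  · exact (s1 i 1).symm.trans ((s1 i 0).symm.trans (a1 i))
  · exact (s1 i 2).symm.trans ((s1 i 1).symm.trans ((s1 i 0).symm.trans (a1 i)))

/-- multiplication by any linear form is neither injective nor surjective in degrees `2 → 3` -/
theorem fails (l : MvPolynomial Vx K) (hl : l.IsHomogeneous 1) :
    (¬ ∀ a : MvPolynomial Vx K, a.IsHomogeneous 2 → l * a ∈ J K → a ∈ J K) ∧
    ¬ ∀ b : MvPolynomial Vx K, b.IsHomogeneous 3 →
      ∃ a : MvPolynomial Vx K, a.IsHomogeneous 2 ∧ b - l * a ∈ J K := by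
  have hrel := rel_xx (K := K)
  set c : Vx → K := fun v => l.coeff (Finsupp.single v 1) with hc
  obtain ⟨y, h00, hy, hA, hB, hC, hD⟩ := exists_y (fun i => c (Vx.u i) - c (Vx.u (i + 1)))
    (fun j => c (Vx.v j) - c (Vx.v (j + 1))) (fun i j => c (Vx.p i) - c (Vx.q j))
  obtain ⟨g1, g2, g3, c1, c2, c3, hne⟩ := detect y h00 hy
  set G : MvPolynomial Vx K := X g1 * X g2 * X g3 with hG
  set Y : MvPolynomial Vx K := ∑ a, ∑ b, C (y a b) * X (Vx.w a b) with hY
  set T : MvPolynomial Vx K := X (Vx.n true) with hT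
  set cc : K := c (Vx.n true) - c (Vx.n false) with hcc
  have hGh : G.IsHomogeneous 3 := ((isHomogeneous_X K g1).mul (isHomogeneous_X K g2)).mul
    (isHomogeneous_X K g3)
  have hYh : Y.IsHomogeneous 1 := by
    refine IsHomogeneous.sum _ _ _ fun a _ => IsHomogeneous.sum _ _ _ fun b _ => ?_
    have := (isHomogeneous_C Vx (y a b)).mul (isHomogeneous_X K (Vx.w a b))
    simpa using this
  have hTh : T.IsHomogeneous 1 := isHomogeneous_X K _
  set ψ := Ideal.Quotient.mk (J K) with hψ
  have hl' : ψ l = ∑ v, ψ (C (c v)) * xx K v := by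
    rw [lin_eq hl, map_sum]
    refine Finset.sum_congr rfl fun v _ => ?_
    rw [map_mul]
    rfl
  have hY' : ψ Y = ∑ a, ∑ b, ψ (C (y a b)) * xx K (Vx.w a b) := by
    rw [hY, map_sum]
    refine Finset.sum_congr rfl fun v _ => ?_
    rw [map_sum]
    refine Finset.sum_congr rfl fun w _ => ?_
    rw [map_mul]
    rfl
  -- the element `Z` killed by `l`
  set Z : MvPolynomial Vx K := (l - 2 * C cc * T) * Y with hZ
  have hZh : Z.IsHomogeneous 2 := by
    refine IsHomogeneous.mul (m := 1) (n := 1) (hl.sub ?_) hYh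
    have e0 : (2 * C cc * T : MvPolynomial Vx K) = C (2 * cc) * T := by
      rw [map_mul, show (C (2 : K) : MvPolynomial Vx K) = 2 from map_ofNat C 2]
    rw [e0]
    have := ((isHomogeneous_C Vx (2 * cc)).mul hTh)
    rwa [zero_add] at this
  have hlZ : l * Z ∈ J K := by
    rw [← Ideal.Quotient.eq_zero_iff_mem]
    have h1 := hrel.key (fun v => ψ (C (c v))) (fun a b => ψ (C (y a b)))
      (fun i => by
        have := congrArg (fun z => ψ (C z)) (hA i)
        simpa only [map_sum, map_mul, map_sub, map_zero] using this)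
      (fun i => by
        have := congrArg (fun z => ψ (C z)) (hB i)
        simpa only [map_sum, map_mul, map_sub, map_zero] using this)
      (fun i => by
        have := congrArg (fun z => ψ (C z)) (hC i)
        simpa only [map_sum, map_mul, map_sub, map_zero] using this)
      (fun i => by
        have := congrArg (fun z => ψ (C z)) (hD i)
        simpa only [map_sum, map_mul, map_sub, map_zero] using this)
    rw [← hl', ← hY'] at h1
    have h2 : ψ (l * Z) = ψ l * ((ψ l - 2 * (ψ (C (c (Vx.n true))) - ψ (C (c (Vx.n false)))) *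
        xx K (Vx.n true)) * ψ Y) := by
      rw [hZ, hcc]
      simp only [map_mul, map_sub, map_ofNat]
      rfl
    rw [h2, h1]
  have hT2 : T * T ∈ J K := by
    rw [← Ideal.Quotient.eq_zero_iff_mem, map_mul]
    exact hrel.sq (Vx.n true)
  constructor
  · intro hinj
    have hZJ := hinj Z hZh hlZ
    have h1 : l * (T * Y) ∈ J K := by
      have : l * (T * Y) = T * Z + 2 * C cc * Y * (T * T) := by
        rw [hZ]
        ring
      rw [this]
      exact (J K).add_mem ((J K).mul_mem_left _ hZJ) ((J K).mul_mem_left _ hT2)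
    have h2 := hinj (T * Y) (by simpa using hTh.mul hYh) h1
    exact hne (D_mem ((J K).mul_mem_right _ h2))
  · intro hsurj
    obtain ⟨a, ha, hGa⟩ := hsurj G hGh
    have hlin : ψ (l * Y * G) = ψ (C cc * (T * Y * G)) := by
      have h1 := hrel.lin_tri (fun v => ψ (C (c v))) (fun a b => ψ (C (y a b))) g1 g2 g3 c1 c2 c3
      rw [← hl', ← hY'] at h1
      rw [hcc, hG, map_mul, map_mul, map_mul, map_mul, map_mul, map_mul, map_mul, map_mul, map_mul,
        map_sub, map_sub]
      exact h1
    have hred : ∀ f g : MvPolynomial Vx K, ψ f = ψ g → D K f = D K g := by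
      intro f g hfg
      have := D_mem (Ideal.Quotient.eq.mp hfg)
      rwa [map_sub, sub_eq_zero] at this
    have hDC : ∀ (c : K) (f : MvPolynomial Vx K), D K (C c * f) = c * D K f := by
      intro c f
      rw [← smul_eq_C_mul, map_smul, smul_eq_mul]
    have h1 : D K (Z * G) = 0 := by
      have : Z * G = Z * (G - l * a) + a * (l * Z) := by ring
      rw [this]
      exact D_mem ((J K).add_mem ((J K).mul_mem_left _ hGa) ((J K).mul_mem_left _ hlZ))
    have h2 : D K (Z * G) = - (cc * D K (T * Y * G)) := by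
      rw [← hDC, ← map_neg]
      apply hred
      have e1 : Z * G = l * Y * G - (C cc * (T * Y * G) + C cc * (T * Y * G)) := by
        rw [hZ]
        ring
      rw [e1, map_sub, hlin, map_add, map_neg]
      ring
    have hcc0 : cc = 0 := by
      rw [h1] at h2
      rcases mul_eq_zero.mp (neg_eq_zero.mp h2.symm) with h3 | h3
      · exact h3
      · exact absurd h3 hne
    obtain ⟨a2, -, hGa2⟩ := hsurj (T * a) (by simpa [add_comm] using hTh.mul ha)
    apply hne
    have e2 : T * Y * G = T * Y * (G - l * a) + Y * l * (T * a - l * a2) + a2 * (l * Z) := by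
      rw [hZ, hcc0, map_zero]
      ring
    rw [e2]
    exact D_mem ((J K).add_mem ((J K).add_mem ((J K).mul_mem_left _ hGa)
      ((J K).mul_mem_left _ hGa2)) ((J K).mul_mem_left _ hlZ))

end Pool.Agent.X51.Bal
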