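import Pool.Agent.X51.Bal.Complex

/-!
# The degree functional
-/

set_option autoImplicit false

namespace Pool.Agent.X51.Bal

open Finset MvPolynomial

universe t

variable (K : Type t) [Field K]

/-- the ideal `I_Δ + (Θ)` -/
noncomputable def J : Ideal (MvPolynomial Vx K) :=
  Ideal.span {f | ∃ s : Finset Vx, s ∉ {s : Finset Vx | ∃ a, s ⊆ fac a} ∧ f = ∏ v ∈ s, X v} ⊔
    Ideal.span (Set.range fun k : Fin 5 => ∑ v ∈ univ.filter (fun v => col v = k), X v)

/-- indicator exponent -/
noncomputable def ind (s : Finset Vx) : Vx →₀ ℕ :=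
  Finsupp.equivFunOnFinite.symm (fun v => if v ∈ s then 1 else 0)

@[simp] theorem ind_apply (s : Finset Vx) (v : Vx) : ind s v = if v ∈ s then 1 else 0 := rfl

variable {K}

theorem prod_X (s : Finset Vx) : (∏ v ∈ s, X v : MvPolynomial Vx K) = monomial (ind s) 1 := by
  rw [monomial_eq, C_1, one_mul, Finsupp.prod_fintype _ _ (by simp),
    ← Finset.prod_subset (Finset.subset_univ s)]
  · refine Finset.prod_congr rfl fun v hv => ?_
    rw [ind_apply, if_pos hv, pow_one]
  · intro v _ hv
    rw [ind_apply, if_neg hv, pow_zero]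

variable (K)

/-- the degree functional -/
noncomputable def D : MvPolynomial Vx K →ₗ[K] K :=
  ∑ a : Ix, (sgn a : K) • lcoeff K (ind (fac a))

variable {K}

theorem D_apply (f : MvPolynomial Vx K) : D K f = ∑ a : Ix, (sgn a : K) * f.coeff (ind (fac a)) := by
  simp [D, lcoeff_apply]

theorem D_nonface (s : Finset Vx) (hs : ¬ ∃ a, s ⊆ fac a) (g : MvPolynomial Vx K) :
    D K (g * ∏ v ∈ s, X v) = 0 := by
  rw [D_apply]
  refine Finset.sum_eq_zero fun a _ => ?_
  rw [prod_X, coeff_mul_monomial', if_neg, mul_zero]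
  intro hle
  apply hs
  refine ⟨a, fun v hv => ?_⟩
  have := hle v
  rw [ind_apply, if_pos hv, ind_apply] at this
  by_contra hne
  rw [if_neg hne] at this
  omega

theorem ind_sub (k : Fin 5) (a : Ix) : ind (fac (nbc k a)) - Finsupp.single (vtx (nbc k a) k) 1 =
    ind (fac a) - Finsupp.single (vtx a k) 1 := by
  ext x
  simp only [Finsupp.tsub_apply, ind_apply, mem_fac, Finsupp.single_apply]
  by_cases hx : col x = k
  · subst hx
    by_cases h1 : vtx (nbc (col x) a) (col x) = x
    · by_cases h2 : vtx a (col x) = x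
      · simp [h1, h2]
      · simp [h1, h2]
    · by_cases h2 : vtx a (col x) = x
      · simp [h1, h2]
      · simp [h1, h2]
  · rw [nbc_vtx k a _ hx]
    have h1 : vtx (nbc k a) k ≠ x := by
      rintro rfl
      exact hx (col_vtx _ _)
    have h2 : vtx a k ≠ x := by
      rintro rfl
      exact hx (col_vtx _ _)
    simp [h1, h2]

theorem D_theta (k : Fin 5) (g : MvPolynomial Vx K) :
    D K (g * ∑ v ∈ univ.filter (fun v => col v = k), X v) = 0 := by
  have h1 : ∀ a : Ix, (g * ∑ v ∈ univ.filter (fun v => col v = k), X v).coeff (ind (fac a)) =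
      g.coeff (ind (fac a) - Finsupp.single (vtx a k) 1) := by
    intro a
    rw [Finset.mul_sum, MvPolynomial.coeff_sum, Finset.sum_eq_single (vtx a k)]
    · rw [coeff_mul_X', if_pos]
      rw [Finsupp.mem_support_iff, ind_apply, if_pos (mem_fac.mpr (by rw [col_vtx]))]
      exact one_ne_zero
    · intro v hv hne
      rw [coeff_mul_X', if_neg]
      rw [Finsupp.mem_support_iff, ind_apply, not_not, if_neg]
      rw [mem_fac, (Finset.mem_filter.mp hv).2]
      exact fun h => hne h.symm
    · intro hcon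
      exact absurd (Finset.mem_filter.mpr ⟨Finset.mem_univ (vtx a k), col_vtx a k⟩) hcon
  rw [D_apply]
  simp only [h1]
  refine Finset.sum_involution (fun a _ => nbc k a) ?_ ?_ (fun _ _ => Finset.mem_univ _)
    (fun a _ => nbc_nbc k a)
  · intro a _
    rw [ind_sub, sgn_nbc]
    push_cast
    ring
  · intro a _ _ h
    apply nbc_ne k a
    rw [h]

theorem span_kill (φ : MvPolynomial Vx K →ₗ[K] K) (S : Set (MvPolynomial Vx K))
    (hS : ∀ f ∈ S, ∀ g, φ (g * f) = 0)
    {f : MvPolynomial Vx K} (hf : f ∈ Ideal.span S) : φ f = 0 := by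
  have h1 : ∀ g, φ (g * f) = 0 := by
    refine Submodule.span_induction (p := fun f _ => ∀ g, φ (g * f) = 0) hS ?_ ?_ ?_ hf
    · intro g
      rw [mul_zero, map_zero]
    · intro x y _ _ hx hy g
      rw [mul_add, map_add, hx, hy, add_zero]
    · intro a x _ hx g
      rw [smul_eq_mul, ← mul_assoc]
      exact hx _
  have := h1 1
  rwa [one_mul] at this

theorem J_kill (φ : MvPolynomial Vx K →ₗ[K] K)
    (h1 : ∀ s : Finset Vx, (¬ ∃ a, s ⊆ fac a) → ∀ g, φ (g * ∏ v ∈ s, X v) = 0)
    (h2 : ∀ k : Fin 5, ∀ g, φ (g * ∑ v ∈ univ.filter (fun v => col v = k), X v) = 0)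
    {f : MvPolynomial Vx K} (hf : f ∈ J K) : φ f = 0 := by
  obtain ⟨f1, hf1, f2, hf2, rfl⟩ := Submodule.mem_sup.mp hf
  rw [map_add]
  have e1 : φ f1 = 0 := span_kill φ _ (by
      rintro _ ⟨s, hs, rfl⟩ g
      exact h1 s hs g) hf1
  have e2 : φ f2 = 0 := span_kill φ _ (by
      rintro _ ⟨k, rfl⟩ g
      exact h2 k g) hf2
  rw [e1, e2, add_zero]

theorem D_mem {f : MvPolynomial Vx K} (hf : f ∈ J K) : D K f = 0 :=
  J_kill (D K) D_nonface D_theta hf

end Pool.Agent.X51.Bal
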