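import Pool.Agent.X51.Bal.Complex

/-!
# Relations in the Artinian reduction
-/

set_option autoImplicit false

namespace Pool.Agent.X51.Bal

open Finset

theorem sum4 {M : Type*} [AddCommMonoid M] (f : Fin 4 → M) (i : Fin 4) :
    ∑ k, f k = f i + f (i + 1) + f (i + 2) + f (i + 3) := by
  rw [Fin.sum_univ_four]
  fin_cases i
  · rfl
  · change _ = f 1 + f 2 + f 3 + f 0
    abel
  · change _ = f 2 + f 3 + f 0 + f 1
    abel
  · change _ = f 3 + f 0 + f 1 + f 2
    abel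

theorem split4 (i k : Fin 4) : k = i ∨ k = i + 1 ∨ (k ≠ i ∧ k ≠ i + 1) := by
  revert i k
  decide

theorem n20 : ∀ i : Fin 4, i + 2 ≠ i := by decide
theorem n21 : ∀ i : Fin 4, i + 2 ≠ i + 1 := by decide
theorem n30 : ∀ i : Fin 4, i + 3 ≠ i := by decide
theorem n31 : ∀ i : Fin 4, i + 3 ≠ i + 1 := by decide
theorem n12 : ∀ i : Fin 4, i + 1 ≠ i + 2 := by decide
theorem n121 : ∀ i : Fin 4, i + 1 ≠ i + 2 + 1 := by decide
theorem n13 : ∀ i : Fin 4, i + 1 ≠ i + 3 := by decide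
theorem n131 : ∀ i : Fin 4, i + 1 ≠ i + 3 + 1 := by decide

theorem univ_split {M : Type*} [AddCommMonoid M] (f : Vx → M) :
    ∑ v, f v = ∑ i, f (Vx.u i) + ∑ i, f (Vx.v i) + (∑ i, f (Vx.p i) + ∑ i, f (Vx.q i)) +
      ∑ i, ∑ j, f (Vx.w i j) + (f (Vx.n true) + f (Vx.n false)) := by
  have h : (univ : Finset Vx) = (((((univ.image Vx.u) ∪ (univ.image Vx.v)) ∪ (univ.image Vx.p)) ∪
      (univ.image Vx.q)) ∪ (univ.image (fun ij : Fin 4 × Fin 4 => Vx.w ij.1 ij.2))) ∪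
      (univ.image Vx.n) := by decide +kernel
  rw [h, Finset.sum_union (by decide +kernel), Finset.sum_union (by decide +kernel),
    Finset.sum_union (by decide +kernel), Finset.sum_union (by decide +kernel),
    Finset.sum_union (by decide +kernel),
    Finset.sum_image (fun a _ b _ h => by injection h),
    Finset.sum_image (fun a _ b _ h => by injection h),
    Finset.sum_image (fun a _ b _ h => by injection h),
    Finset.sum_image (fun a _ b _ h => by injection h),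
    Finset.sum_image (fun a _ b _ h => by
      injection h with h1 h2
      exact Prod.ext h1 h2),
    Finset.sum_image (fun a _ b _ h => by injection h), Fintype.sum_bool, Fintype.sum_prod_type,
    add_assoc (∑ i, f (Vx.u i) + ∑ i, f (Vx.v i))]

/-- the relations -/
structure Rel {R : Type*} [CommRing R] (x : Vx → R) : Prop where
  pair : ∀ v w, v ≠ w → (∀ a, vtx a (col v) = v → vtx a (col w) ≠ w) → x v * x w = 0
  theta : ∀ k : Fin 5, ∑ v ∈ univ.filter (fun v => col v = k), x v = 0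

namespace Rel

variable {R : Type*} [CommRing R] {x : Vx → R} (h : Rel x)

include h

theorem sq (v : Vx) : x v * x v = 0 := by
  have h1 := congrArg (fun z => x v * z) (h.theta (col v))
  simp only [mul_zero, Finset.mul_sum] at h1
  rw [Finset.sum_eq_single v] at h1
  · exact h1
  · intro w hw hne
    apply h.pair v w (Ne.symm hne)
    intro a ha hb
    rw [(Finset.mem_filter.mp hw).2, ha] at hb
    exact hne hb.symm
  · intro hcon
    exact absurd (by simp) hcon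

theorem thu : ∑ i, x (Vx.u i) = 0 := by
  have h1 := h.theta 1
  rw [show univ.filter (fun v => col v = 1) = univ.image Vx.u by decide +kernel,
    Finset.sum_image (fun a _ b _ h => by injection h)] at h1
  exact h1

theorem thv : ∑ i, x (Vx.v i) = 0 := by
  have h1 := h.theta 2
  rw [show univ.filter (fun v => col v = 2) = univ.image Vx.v by decide +kernel,
    Finset.sum_image (fun a _ b _ h => by injection h)] at h1
  exact h1

theorem thp : ∑ i, x (Vx.p i) + ∑ i, x (Vx.q i) = 0 := by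
  have h1 := h.theta 3
  rw [show univ.filter (fun v => col v = 3) = univ.image Vx.p ∪ univ.image Vx.q by decide +kernel,
    Finset.sum_union (by decide +kernel), Finset.sum_image (fun a _ b _ h => by injection h),
    Finset.sum_image (fun a _ b _ h => by injection h)] at h1
  exact h1

theorem thw : ∑ i, ∑ j, x (Vx.w i j) = 0 := by
  have h1 := h.theta 0
  rw [show univ.filter (fun v => col v = 0) =
      univ.image (fun ij : Fin 4 × Fin 4 => Vx.w ij.1 ij.2) by decide +kernel,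
    Finset.sum_image (fun a _ b _ h => by
      injection h with h1 h2
      exact Prod.ext h1 h2), Fintype.sum_prod_type] at h1
  exact h1

theorem thn : x (Vx.n true) + x (Vx.n false) = 0 := by
  have h1 := h.theta 4
  rw [show univ.filter (fun v => col v = 4) = univ.image Vx.n by decide +kernel,
    Finset.sum_image (fun a _ b _ h => by injection h), Fintype.sum_bool] at h1
  exact h1

theorem uw0 (k i j : Fin 4) (h1 : k ≠ i) (h2 : k ≠ i + 1) : x (Vx.u k) * x (Vx.w i j) = 0 := by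
  apply h.pair _ _ (by simp)
  revert k i j
  decide +kernel

theorem vw0 (k i j : Fin 4) (h1 : k ≠ j) (h2 : k ≠ j + 1) : x (Vx.v k) * x (Vx.w i j) = 0 := by
  apply h.pair _ _ (by simp)
  revert k i j
  decide +kernel

theorem pw0 (k i j : Fin 4) (h1 : k ≠ i) : x (Vx.p k) * x (Vx.w i j) = 0 := by
  apply h.pair _ _ (by simp)
  revert k i j
  decide +kernel

theorem qw0 (k i j : Fin 4) (h1 : k ≠ j) : x (Vx.q k) * x (Vx.w i j) = 0 := by
  apply h.pair _ _ (by simp)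
  revert k i j
  decide +kernel

theorem ww (i j k l : Fin 4) : x (Vx.w k l) * x (Vx.w i j) = 0 := by
  by_cases hne : Vx.w k l = Vx.w i j
  · rw [hne]
    exact h.sq _
  · apply h.pair _ _ hne
    intro a ha hb
    exact hne (ha.symm.trans hb)

theorem uw (i j : Fin 4) : x (Vx.u (i + 1)) * x (Vx.w i j) = -(x (Vx.u i) * x (Vx.w i j)) := by
  have h1 := h.thu
  rw [sum4 _ i] at h1
  have h2 := h.uw0 (i + 2) i j (n20 i) (n21 i)
  have h3 := h.uw0 (i + 3) i j (n30 i) (n31 i)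
  linear_combination x (Vx.w i j) * h1 - h2 - h3

theorem vw (i j : Fin 4) : x (Vx.v (j + 1)) * x (Vx.w i j) = -(x (Vx.v j) * x (Vx.w i j)) := by
  have h1 := h.thv
  rw [sum4 _ j] at h1
  have h2 := h.vw0 (j + 2) i j (n20 j) (n21 j)
  have h3 := h.vw0 (j + 3) i j (n30 j) (n31 j)
  linear_combination x (Vx.w i j) * h1 - h2 - h3

theorem qw (i j : Fin 4) : x (Vx.q j) * x (Vx.w i j) = -(x (Vx.p i) * x (Vx.w i j)) := by
  have h1 := h.thp
  have e1 : (∑ k, x (Vx.p k)) * x (Vx.w i j) = x (Vx.p i) * x (Vx.w i j) := by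
    rw [Finset.sum_mul, Finset.sum_eq_single i]
    · intro k _ hk
      exact h.pw0 k i j hk
    · intro hcon
      exact absurd (Finset.mem_univ _) hcon
  have e2 : (∑ k, x (Vx.q k)) * x (Vx.w i j) = x (Vx.q j) * x (Vx.w i j) := by
    rw [Finset.sum_mul, Finset.sum_eq_single j]
    · intro k _ hk
      exact h.qw0 k i j hk
    · intro hcon
      exact absurd (Finset.mem_univ _) hcon
  linear_combination x (Vx.w i j) * h1 - e1 - e2

/-- multiplication of `x_w` by a linear form -/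
theorem lin_w (c : Vx → R) (i j : Fin 4) :
    (∑ v, c v * x v) * x (Vx.w i j) =
      ((c (Vx.u i) - c (Vx.u (i + 1))) * x (Vx.u i) + (c (Vx.v j) - c (Vx.v (j + 1))) * x (Vx.v j) +
        (c (Vx.p i) - c (Vx.q j)) * x (Vx.p i) +
        (c (Vx.n true) - c (Vx.n false)) * x (Vx.n true)) * x (Vx.w i j) := by
  rw [univ_split]
  have e1 : (∑ k, c (Vx.u k) * x (Vx.u k)) * x (Vx.w i j) =
      (c (Vx.u i) - c (Vx.u (i + 1))) * x (Vx.u i) * x (Vx.w i j) := by
    rw [sum4 _ i]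
    have h1 := h.uw i j
    have h2 := h.uw0 (i + 2) i j (n20 i) (n21 i)
    have h3 := h.uw0 (i + 3) i j (n30 i) (n31 i)
    linear_combination c (Vx.u (i + 1)) * h1 + c (Vx.u (i + 2)) * h2 + c (Vx.u (i + 3)) * h3
  have e2 : (∑ k, c (Vx.v k) * x (Vx.v k)) * x (Vx.w i j) =
      (c (Vx.v j) - c (Vx.v (j + 1))) * x (Vx.v j) * x (Vx.w i j) := by
    rw [sum4 _ j]
    have h1 := h.vw i j
    have h2 := h.vw0 (j + 2) i j (n20 j) (n21 j)
    have h3 := h.vw0 (j + 3) i j (n30 j) (n31 j)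
    linear_combination c (Vx.v (j + 1)) * h1 + c (Vx.v (j + 2)) * h2 + c (Vx.v (j + 3)) * h3
  have e3 : (∑ k, c (Vx.p k) * x (Vx.p k)) * x (Vx.w i j) =
      c (Vx.p i) * x (Vx.p i) * x (Vx.w i j) := by
    rw [Finset.sum_mul, Finset.sum_eq_single i]
    · intro k _ hk
      rw [mul_assoc, h.pw0 k i j hk, mul_zero]
    · intro hcon
      exact absurd (Finset.mem_univ _) hcon
  have e4 : (∑ k, c (Vx.q k) * x (Vx.q k)) * x (Vx.w i j) =
      - (c (Vx.q j) * x (Vx.p i) * x (Vx.w i j)) := by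
    rw [Finset.sum_mul, Finset.sum_eq_single j]
    · rw [mul_assoc, h.qw i j]
      ring
    · intro k _ hk
      rw [mul_assoc, h.qw0 k i j hk, mul_zero]
    · intro hcon
      exact absurd (Finset.mem_univ _) hcon
  have e5 : (∑ k, ∑ l, c (Vx.w k l) * x (Vx.w k l)) * x (Vx.w i j) = 0 := by
    rw [Finset.sum_mul]
    refine Finset.sum_eq_zero fun k _ => ?_
    rw [Finset.sum_mul]
    refine Finset.sum_eq_zero fun l _ => ?_
    rw [mul_assoc, h.ww, mul_zero]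
  have e6 := h.thn
  linear_combination e1 + e2 + e3 + e4 + e5 + c (Vx.n false) * x (Vx.w i j) * e6

/-! ### the three families of cubics -/

theorem relN (i j : Fin 4) :
    x (Vx.u (i + 1)) * x (Vx.v (j + 1)) * x (Vx.w (i + 1) (j + 1)) -
      x (Vx.u i) * x (Vx.v (j + 1)) * x (Vx.w i (j + 1)) -
      x (Vx.u (i + 1)) * x (Vx.v j) * x (Vx.w (i + 1) j) +
      x (Vx.u i) * x (Vx.v j) * x (Vx.w i j) = 0 := by
  have h1 := h.thw
  rw [sum4 _ i, sum4 _ j, sum4 _ j] at h1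
  have z2 : ∀ l, x (Vx.u (i + 1)) * x (Vx.w (i + 2) l) = 0 := fun l =>
    h.uw0 _ _ _ (n12 i) (n121 i)
  have z3 : ∀ l, x (Vx.u (i + 1)) * x (Vx.w (i + 3) l) = 0 := fun l =>
    h.uw0 _ _ _ (n13 i) (n131 i)
  have y2 : x (Vx.u (i + 1)) * ∑ l, x (Vx.w (i + 2) l) = 0 := by
    rw [Finset.mul_sum]
    exact Finset.sum_eq_zero fun l _ => z2 l
  have y3 : x (Vx.u (i + 1)) * ∑ l, x (Vx.w (i + 3) l) = 0 := by
    rw [Finset.mul_sum]
    exact Finset.sum_eq_zero fun l _ => z3 l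
  have a2 := h.vw0 (j + 1) i (j + 2) (n12 j) (n121 j)
  have a3 := h.vw0 (j + 1) i (j + 3) (n13 j) (n131 j)
  have b2 := h.vw0 (j + 1) (i + 1) (j + 2) (n12 j) (n121 j)
  have b3 := h.vw0 (j + 1) (i + 1) (j + 3) (n13 j) (n131 j)
  have c1 := h.uw i (j + 1)
  have c2 := h.uw i j
  have d1 := h.vw (i + 1) j
  have d2 := h.vw i j
  linear_combination x (Vx.u (i + 1)) * x (Vx.v (j + 1)) * h1 - x (Vx.v (j + 1)) * y2 -
    x (Vx.v (j + 1)) * y3 - x (Vx.u (i + 1)) * a2 - x (Vx.u (i + 1)) * a3 -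
    x (Vx.u (i + 1)) * b2 - x (Vx.u (i + 1)) * b3 - x (Vx.v (j + 1)) * c1 -
    x (Vx.u (i + 1)) * d1 - x (Vx.u (i + 1)) * d2 + x (Vx.v j) * c2

/-- generic: multiply the colour `0` theta by two elements -/
theorem thw_mul (a : R) : ∑ i, ∑ j, a * x (Vx.w i j) = 0 := by
  have h1 := congrArg (fun z => a * z) h.thw
  simpa only [mul_zero, Finset.mul_sum] using h1

theorem relM (i j : Fin 4) :
    x (Vx.v (j + 1)) * x (Vx.p i) * x (Vx.w i (j + 1)) = x (Vx.v j) * x (Vx.p i) * x (Vx.w i j) := by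
  have h1 := h.thw_mul (x (Vx.p i) * x (Vx.v (j + 1)))
  rw [Finset.sum_eq_single i] at h1
  · rw [sum4 _ j] at h1
    have a2 := h.vw0 (j + 1) i (j + 2) (n12 j) (n121 j)
    have a3 := h.vw0 (j + 1) i (j + 3) (n13 j) (n131 j)
    have d2 := h.vw i j
    linear_combination h1 - x (Vx.p i) * a2 - x (Vx.p i) * a3 - x (Vx.p i) * d2
  · intro k _ hk
    refine Finset.sum_eq_zero fun l _ => ?_
    have := h.pw0 i k l (Ne.symm hk)
    linear_combination x (Vx.v (j + 1)) * this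
  · intro hcon
    exact absurd (Finset.mem_univ _) hcon

theorem sumM (j : Fin 4) : ∑ i, x (Vx.v j) * x (Vx.p i) * x (Vx.w i j) = 0 := by
  have h1 := h.thw_mul (x (Vx.v j) * x (Vx.q j))
  have h2 : ∀ i, ∑ l, x (Vx.v j) * x (Vx.q j) * x (Vx.w i l) =
      -(x (Vx.v j) * x (Vx.p i) * x (Vx.w i j)) := by
    intro i
    rw [Finset.sum_eq_single j]
    · have := h.qw i j
      linear_combination x (Vx.v j) * this
    · intro l _ hl
      have := h.qw0 j i l (Ne.symm hl)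
      linear_combination x (Vx.v j) * this
    · intro hcon
      exact absurd (Finset.mem_univ _) hcon
  simp only [h2, Finset.sum_neg_distrib] at h1
  exact neg_eq_zero.mp h1

theorem relK (i j : Fin 4) :
    x (Vx.u (i + 1)) * x (Vx.p (i + 1)) * x (Vx.w (i + 1) j) =
      x (Vx.u i) * x (Vx.p i) * x (Vx.w i j) := by
  have h1 := h.thw_mul (x (Vx.u (i + 1)) * x (Vx.q j))
  have h2 : ∀ a, ∑ l, x (Vx.u (i + 1)) * x (Vx.q j) * x (Vx.w a l) =
      x (Vx.u (i + 1)) * x (Vx.q j) * x (Vx.w a j) := by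
    intro a
    rw [Finset.sum_eq_single j]
    · intro l _ hl
      have := h.qw0 j a l (Ne.symm hl)
      linear_combination x (Vx.u (i + 1)) * this
    · intro hcon
      exact absurd (Finset.mem_univ _) hcon
  simp only [h2] at h1
  rw [sum4 _ i] at h1
  have a2 := h.uw0 (i + 1) (i + 2) j (n12 i) (n121 i)
  have a3 := h.uw0 (i + 1) (i + 3) j (n13 i) (n131 i)
  have d1 := h.qw (i + 1) j
  have d2 := h.qw i j
  have d3 := h.uw i j
  linear_combination -h1 + x (Vx.q j) * a2 + x (Vx.q j) * a3 + x (Vx.u (i + 1)) * d1 +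
    x (Vx.u (i + 1)) * d2 - x (Vx.p i) * d3

theorem sumK (i : Fin 4) : ∑ j, x (Vx.u i) * x (Vx.p i) * x (Vx.w i j) = 0 := by
  have h1 := h.thw_mul (x (Vx.u i) * x (Vx.p i))
  rw [Finset.sum_eq_single i] at h1
  · exact h1
  · intro k _ hk
    refine Finset.sum_eq_zero fun l _ => ?_
    have := h.pw0 i k l (Ne.symm hk)
    linear_combination x (Vx.u i) * this
  · intro hcon
    exact absurd (Finset.mem_univ _) hcon

theorem M_eq (i j : Fin 4) :
    x (Vx.v j) * x (Vx.p i) * x (Vx.w i j) = x (Vx.v 0) * x (Vx.p i) * x (Vx.w i 0) := by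
  have h1 := h.relM i 0
  have h2 := h.relM i 1
  have h3 := h.relM i 2
  fin_cases j
  · rfl
  · exact h1
  · exact h2.trans h1
  · exact h3.trans (h2.trans h1)

theorem K_eq (i j : Fin 4) :
    x (Vx.u i) * x (Vx.p i) * x (Vx.w i j) = x (Vx.u 0) * x (Vx.p 0) * x (Vx.w 0 j) := by
  have h1 := h.relK 0 j
  have h2 := h.relK 1 j
  have h3 := h.relK 2 j
  fin_cases i
  · rfl
  · exact h1
  · exact h2.trans h1
  · exact h3.trans (h2.trans h1)

theorem N_eq (i j : Fin 4) :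
    x (Vx.u i) * x (Vx.v j) * x (Vx.w i j) = x (Vx.u i) * x (Vx.v 0) * x (Vx.w i 0) +
      x (Vx.u 0) * x (Vx.v j) * x (Vx.w 0 j) - x (Vx.u 0) * x (Vx.v 0) * x (Vx.w 0 0) := by
  have r00 := h.relN 0 0
  have r01 := h.relN 0 1
  have r02 := h.relN 0 2
  have r10 := h.relN 1 0
  have r11 := h.relN 1 1
  have r12 := h.relN 1 2
  have r20 := h.relN 2 0
  have r21 := h.relN 2 1
  have r22 := h.relN 2 2
  have e1 : (0 + 1 : Fin 4) = 1 := rfl
  have e2 : (1 + 1 : Fin 4) = 2 := rfl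
  have e3 : (2 + 1 : Fin 4) = 3 := rfl
  simp only [e1, e2, e3] at r00 r01 r02 r10 r11 r12 r20 r21 r22
  fin_cases i
  · change x (Vx.u 0) * x (Vx.v j) * x (Vx.w 0 j) = x (Vx.u 0) * x (Vx.v 0) * x (Vx.w 0 0) +
      x (Vx.u 0) * x (Vx.v j) * x (Vx.w 0 j) - x (Vx.u 0) * x (Vx.v 0) * x (Vx.w 0 0)
    ring
  · fin_cases j
    · change x (Vx.u 1) * x (Vx.v 0) * x (Vx.w 1 0) = x (Vx.u 1) * x (Vx.v 0) * x (Vx.w 1 0) +
        x (Vx.u 0) * x (Vx.v 0) * x (Vx.w 0 0) - x (Vx.u 0) * x (Vx.v 0) * x (Vx.w 0 0)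
      ring
    · change x (Vx.u 1) * x (Vx.v 1) * x (Vx.w 1 1) = x (Vx.u 1) * x (Vx.v 0) * x (Vx.w 1 0) +
        x (Vx.u 0) * x (Vx.v 1) * x (Vx.w 0 1) - x (Vx.u 0) * x (Vx.v 0) * x (Vx.w 0 0)
      linear_combination r00
    · change x (Vx.u 1) * x (Vx.v 2) * x (Vx.w 1 2) = x (Vx.u 1) * x (Vx.v 0) * x (Vx.w 1 0) +
        x (Vx.u 0) * x (Vx.v 2) * x (Vx.w 0 2) - x (Vx.u 0) * x (Vx.v 0) * x (Vx.w 0 0)
      linear_combination r00 + r01
    · change x (Vx.u 1) * x (Vx.v 3) * x (Vx.w 1 3) = x (Vx.u 1) * x (Vx.v 0) * x (Vx.w 1 0) +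
        x (Vx.u 0) * x (Vx.v 3) * x (Vx.w 0 3) - x (Vx.u 0) * x (Vx.v 0) * x (Vx.w 0 0)
      linear_combination r00 + r01 + r02
  · fin_cases j
    · change x (Vx.u 2) * x (Vx.v 0) * x (Vx.w 2 0) = x (Vx.u 2) * x (Vx.v 0) * x (Vx.w 2 0) +
        x (Vx.u 0) * x (Vx.v 0) * x (Vx.w 0 0) - x (Vx.u 0) * x (Vx.v 0) * x (Vx.w 0 0)
      ring
    · change x (Vx.u 2) * x (Vx.v 1) * x (Vx.w 2 1) = x (Vx.u 2) * x (Vx.v 0) * x (Vx.w 2 0) +
        x (Vx.u 0) * x (Vx.v 1) * x (Vx.w 0 1) - x (Vx.u 0) * x (Vx.v 0) * x (Vx.w 0 0)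
      linear_combination r00 + r10
    · change x (Vx.u 2) * x (Vx.v 2) * x (Vx.w 2 2) = x (Vx.u 2) * x (Vx.v 0) * x (Vx.w 2 0) +
        x (Vx.u 0) * x (Vx.v 2) * x (Vx.w 0 2) - x (Vx.u 0) * x (Vx.v 0) * x (Vx.w 0 0)
      linear_combination r00 + r01 + r10 + r11
    · change x (Vx.u 2) * x (Vx.v 3) * x (Vx.w 2 3) = x (Vx.u 2) * x (Vx.v 0) * x (Vx.w 2 0) +
        x (Vx.u 0) * x (Vx.v 3) * x (Vx.w 0 3) - x (Vx.u 0) * x (Vx.v 0) * x (Vx.w 0 0)
      linear_combination r00 + r01 + r02 + r10 + r11 + r12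
  · fin_cases j
    · change x (Vx.u 3) * x (Vx.v 0) * x (Vx.w 3 0) = x (Vx.u 3) * x (Vx.v 0) * x (Vx.w 3 0) +
        x (Vx.u 0) * x (Vx.v 0) * x (Vx.w 0 0) - x (Vx.u 0) * x (Vx.v 0) * x (Vx.w 0 0)
      ring
    · change x (Vx.u 3) * x (Vx.v 1) * x (Vx.w 3 1) = x (Vx.u 3) * x (Vx.v 0) * x (Vx.w 3 0) +
        x (Vx.u 0) * x (Vx.v 1) * x (Vx.w 0 1) - x (Vx.u 0) * x (Vx.v 0) * x (Vx.w 0 0)
      linear_combination r00 + r10 + r20
    · change x (Vx.u 3) * x (Vx.v 2) * x (Vx.w 3 2) = x (Vx.u 3) * x (Vx.v 0) * x (Vx.w 3 0) +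
        x (Vx.u 0) * x (Vx.v 2) * x (Vx.w 0 2) - x (Vx.u 0) * x (Vx.v 0) * x (Vx.w 0 0)
      linear_combination r00 + r01 + r10 + r11 + r20 + r21
    · change x (Vx.u 3) * x (Vx.v 3) * x (Vx.w 3 3) = x (Vx.u 3) * x (Vx.v 0) * x (Vx.w 3 0) +
        x (Vx.u 0) * x (Vx.v 3) * x (Vx.w 0 3) - x (Vx.u 0) * x (Vx.v 0) * x (Vx.w 0 0)
      linear_combination r00 + r01 + r02 + r10 + r11 + r12 + r20 + r21 + r22

end Rel

end Pool.Agent.X51.Bal
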