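import Mathlib

/-!
# A criterion for a simplicial complex to be a sphere (strictly convex realization)
-/

set_option autoImplicit false

namespace Pool.Agent.X51.Bal

open Finset

variable {V : Type} [Fintype V] [DecidableEq V] {d : ℕ}

/-- geometric realization of a set of faces -/
def realization (Δ : Set (Finset V)) : Set (V → ℝ) :=
  {x | (∀ v, 0 ≤ x v) ∧ ∑ v, x v = 1 ∧ univ.filter (fun v => x v ≠ 0) ∈ Δ}

/-- strictly convex realization: points `p v`, facets `F ι`, functionals `L ι` -/
structure Convexity {ι : Type} (p : V → Fin d → ℝ) (F : ι → Finset V) (L : ι → Fin d → ℝ)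
    (nb : ι → V → ι) : Prop where
  card : ∀ a, (F a).card = d
  on : ∀ a, ∀ v ∈ F a, ∑ k, L a k * p v k = 1
  off : ∀ a, ∀ v, v ∉ F a → ∑ k, L a k * p v k < 1
  nb_sub : ∀ a, ∀ v ∈ F a, (F a).erase v ⊆ F (nb a v)
  nb_not : ∀ a, ∀ v ∈ F a, v ∉ F (nb a v)

namespace Convexity

variable {ι : Type} {p : V → Fin d → ℝ} {F : ι → Finset V} {L : ι → Fin d → ℝ} {nb : ι → V → ι}

theorem diff_apply (h : Convexity p F L nb) (a : ι) (v : V) (hv : v ∈ F a) (x : V → ℝ)
    (hx : ∀ w, w ∉ F a → x w = 0) :
    ∑ k, (L (nb a v) k - L a k) * (∑ w, x w * p w k) =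
      x v * (∑ k, L (nb a v) k * p v k - 1) := by
  have h1 : ∀ b : ι, ∑ k, L b k * (∑ w, x w * p w k) = ∑ w, x w * ∑ k, L b k * p w k := by
    intro b
    simp only [Finset.mul_sum]
    rw [Finset.sum_comm]
    refine Finset.sum_congr rfl fun w _ => Finset.sum_congr rfl fun k _ => by ring
  simp only [sub_mul, Finset.sum_sub_distrib]
  rw [h1, h1, ← Finset.sum_sub_distrib]
  rw [Finset.sum_eq_single v]
  · rw [h.on a v hv]
    ring
  · intro w _ hw
    by_cases hwF : w ∈ F a
    · rw [h.on a w hwF, h.on _ w (h.nb_sub a v hv (Finset.mem_erase.mpr ⟨hw, hwF⟩))]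
      ring
    · rw [hx w hwF]
      ring
  · intro hcon
    exact absurd (Finset.mem_univ _) hcon

theorem neg (h : Convexity p F L nb) (a : ι) (v : V) (hv : v ∈ F a) :
    ∑ k, L (nb a v) k * p v k - 1 < 0 := by
  have := h.off (nb a v) v (h.nb_not a v hv)
  linarith

/-- uniqueness of the coefficients on a facet -/
theorem unique (h : Convexity p F L nb) (a : ι) (x : V → ℝ) (hx : ∀ w, w ∉ F a → x w = 0)
    (h0 : ∀ k, ∑ w, x w * p w k = 0) : x = 0 := by
  funext v
  by_cases hv : v ∈ F a
  · have h1 := h.diff_apply a v hv x hx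
    simp only [h0, mul_zero, Finset.sum_const_zero] at h1
    rcases mul_eq_zero.mp h1.symm with h2 | h2
    · exact h2
    · have := h.neg a v hv
      linarith
  · exact hx v hv

theorem span_facet (h : Convexity p F L nb) (a : ι) (y : Fin d → ℝ) :
    ∃ x : V → ℝ, (∀ w, w ∉ F a → x w = 0) ∧ ∀ k, ∑ w, x w * p w k = y k := by
  have hli : LinearIndependent ℝ (fun v : F a => p v) := by
    rw [Fintype.linearIndependent_iff]
    intro g hg v
    have h1 := h.unique a (fun w => if hw : w ∈ F a then g ⟨w, hw⟩ else 0) (by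
      intro w hw
      simp only [dif_neg hw]) (by
      intro k
      have h2 := congrFun hg k
      simp only [Finset.sum_apply, Pi.smul_apply, smul_eq_mul, Pi.zero_apply] at h2
      refine Eq.trans ?_ h2
      rw [← Finset.sum_subset (Finset.subset_univ (F a))]
      · rw [← Finset.sum_coe_sort (F a)]
        refine Finset.sum_congr rfl fun w _ => ?_
        simp only [dif_pos w.2]
      · intro w _ hw
        simp only [dif_neg hw, zero_mul])
    have h3 := congrFun h1 v
    simp only [dif_pos v.2, Pi.zero_apply] at h3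
    exact h3
  have hsp := hli.span_eq_top_of_card_eq_finrank' (by
    rw [Fintype.card_coe, h.card a, Module.finrank_fin_fun])
  have hy : y ∈ Submodule.span ℝ (Set.range (fun v : F a => p v)) := by
    rw [hsp]
    trivial
  rw [Submodule.mem_span_range_iff_exists_fun] at hy
  obtain ⟨c, hc⟩ := hy
  refine ⟨fun w => if hw : w ∈ F a then c ⟨w, hw⟩ else 0, fun w hw => dif_neg hw, fun k => ?_⟩
  have h2 := congrFun hc k
  simp only [Finset.sum_apply, Pi.smul_apply, smul_eq_mul] at h2
  rw [← h2, ← Finset.sum_subset (Finset.subset_univ (F a))]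
  · rw [← Finset.sum_coe_sort (F a)]
    refine Finset.sum_congr rfl fun w _ => ?_
    simp only [dif_pos w.2]
  · intro w _ hw
    simp only [dif_neg hw, zero_mul]

/-- value of a functional on a combination -/
theorem eval (b : ι) (x : V → ℝ) :
    ∑ k, L b k * (∑ w, x w * p w k) = ∑ w, x w * ∑ k, L b k * p w k := by
  simp only [Finset.mul_sum]
  rw [Finset.sum_comm]
  refine Finset.sum_congr rfl fun w _ => Finset.sum_congr rfl fun k _ => by ring

theorem eval_on (h : Convexity p F L nb) (a : ι) (x : V → ℝ) (hx : ∀ w, w ∉ F a → x w = 0) :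
    ∑ k, L a k * (∑ w, x w * p w k) = ∑ w, x w := by
  rw [eval]
  refine Finset.sum_congr rfl fun w _ => ?_
  by_cases hw : w ∈ F a
  · rw [h.on a w hw, mul_one]
  · rw [hx w hw, zero_mul]

theorem eval_le (h : Convexity p F L nb) (a : ι) (x : V → ℝ) (hx : ∀ w, 0 ≤ x w) :
    ∑ k, L a k * (∑ w, x w * p w k) ≤ ∑ w, x w := by
  rw [eval]
  refine Finset.sum_le_sum fun w _ => ?_
  by_cases hw : w ∈ F a
  · rw [h.on a w hw, mul_one]
  · have := h.off a w hw
    nlinarith [hx w]

theorem eval_eq (h : Convexity p F L nb) (a : ι) (x : V → ℝ) (hx : ∀ w, 0 ≤ x w)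
    (he : ∑ k, L a k * (∑ w, x w * p w k) = ∑ w, x w) : ∀ w, w ∉ F a → x w = 0 := by
  rw [eval] at he
  intro w hw
  have h1 : ∑ w, (x w - x w * ∑ k, L a k * p w k) = 0 := by
    rw [Finset.sum_sub_distrib, he, sub_self]
  have h2 := (Finset.sum_eq_zero_iff_of_nonneg (fun v _ => by
    by_cases hv : v ∈ F a
    · rw [h.on a v hv]
      simp
    · have := h.off a v hv
      nlinarith [hx v])).mp h1 w (Finset.mem_univ _)
  have h3 := h.off a w hw
  have h4 : x w * (1 - ∑ k, L a k * p w k) = 0 := by linarith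
  rcases mul_eq_zero.mp h4 with h5 | h5
  · exact h5
  · linarith

end Convexity

variable {ι : Type} {p : V → Fin d → ℝ} {F : ι → Finset V} {L : ι → Fin d → ℝ} {nb : ι → V → ι}

theorem realization_compact [Finite ι] (F : ι → Finset V) :
    IsCompact (realization {s : Finset V | ∃ a, s ⊆ F a}) := by
  have h1 : realization {s : Finset V | ∃ a, s ⊆ F a} =
      ⋃ a, {x : V → ℝ | (∀ v, 0 ≤ x v) ∧ ∑ v, x v = 1 ∧ ∀ v, v ∉ F a → x v = 0} := by
    ext x
    simp only [realization, Set.mem_ofPred_eq, Set.mem_iUnion]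
    constructor
    · rintro ⟨h1, h2, a, h3⟩
      refine ⟨a, h1, h2, fun v hv => ?_⟩
      by_contra hne
      exact hv (h3 (Finset.mem_filter.mpr ⟨Finset.mem_univ _, hne⟩))
    · rintro ⟨a, h1, h2, h3⟩
      refine ⟨h1, h2, a, fun v hv => ?_⟩
      by_contra hne
      exact (Finset.mem_filter.mp hv).2 (h3 v hne)
  rw [h1]
  refine isCompact_iUnion fun a => ?_
  have hsub : {x : V → ℝ | (∀ v, 0 ≤ x v) ∧ ∑ v, x v = 1 ∧ ∀ v, v ∉ F a → x v = 0} ⊆
      Set.Icc 0 1 := by
    rintro x ⟨h1, h2, -⟩
    refine ⟨fun v => h1 v, fun v => ?_⟩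
    have := Finset.single_le_sum (f := x) (fun w _ => h1 w) (Finset.mem_univ v)
    simp only [Pi.one_apply]
    linarith
  refine IsCompact.of_isClosed_subset isCompact_Icc ?_ hsub
  have c1 : IsClosed {x : V → ℝ | ∀ v, 0 ≤ x v} := by
    simp only [Set.ofPred_forall]
    exact isClosed_iInter fun v => isClosed_le continuous_const (continuous_apply v)
  have c2 : IsClosed {x : V → ℝ | ∑ v, x v = 1} :=
    isClosed_eq (continuous_finsetSum _ fun v _ => continuous_apply v) continuous_const
  have c3 : IsClosed {x : V → ℝ | ∀ v, v ∉ F a → x v = 0} := by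
    simp only [Set.ofPred_forall]
    exact isClosed_iInter fun v => isClosed_iInter fun _ =>
      isClosed_eq (continuous_apply v) continuous_const
  exact c1.inter (c2.inter c3)

/-- the point of `ℝ^d` given by barycentric coordinates -/
noncomputable def pt (p : V → Fin d → ℝ) (x : V → ℝ) : EuclideanSpace ℝ (Fin d) :=
  WithLp.toLp 2 (fun k => ∑ w, x w * p w k)

theorem sphere_of_convexity [Finite ι] [Nonempty ι] (h : Convexity p F L nb) :
    Nonempty (realization {s : Finset V | ∃ a, s ⊆ F a} ≃ₜ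
      Metric.sphere (0 : EuclideanSpace ℝ (Fin d)) 1) := by
  set Δ := {s : Finset V | ∃ a, s ⊆ F a} with hΔ
  have hface : ∀ x ∈ realization Δ, ∃ a, ∀ v, v ∉ F a → x v = 0 := by
    rintro x ⟨h1, h2, a, h3⟩
    refine ⟨a, fun v hv => ?_⟩
    by_contra hne
    exact hv (h3 (Finset.mem_filter.mpr ⟨Finset.mem_univ _, hne⟩))
  have hne : ∀ x ∈ realization Δ, pt p x ≠ 0 := by
    intro x hx h0
    obtain ⟨a, ha⟩ := hface x hx
    have h1 := h.eval_on a x ha
    have h2 : ∀ k, ∑ w, x w * p w k = 0 := fun k => by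
      have := congrArg (fun z : EuclideanSpace ℝ (Fin d) => z k) h0
      simpa [pt] using this
    simp only [h2, mul_zero, Finset.sum_const_zero] at h1
    have := hx.2.1
    linarith
  let f : realization Δ → Metric.sphere (0 : EuclideanSpace ℝ (Fin d)) 1 :=
    fun x => ⟨(‖pt p x.1‖)⁻¹ • pt p x.1, by
      rw [mem_sphere_zero_iff_norm, norm_smul, norm_inv, norm_norm,
        inv_mul_cancel₀ (norm_ne_zero_iff.mpr (hne x.1 x.2))]⟩
  have hcont_pt : Continuous (fun x : V → ℝ => pt p x) := by
    unfold pt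
    refine (PiLp.continuous_toLp 2 _).comp ?_
    exact continuous_pi fun k => continuous_finsetSum _ fun w _ =>
      (continuous_apply w).mul continuous_const
  have hf : Continuous f := by
    refine Continuous.subtype_mk ?_ _
    have h1 : Continuous (fun x : realization Δ => pt p x.1) := hcont_pt.comp continuous_subtype_val
    exact (h1.norm.inv₀ (fun x => norm_ne_zero_iff.mpr (hne x.1 x.2))).smul h1
  have hinj : Function.Injective f := by
    rintro ⟨x, hx⟩ ⟨y, hy⟩ hxy
    have h1 := congrArg Subtype.val hxy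
    simp only [f] at h1
    obtain ⟨a, ha⟩ := hface x hx
    obtain ⟨b, hb⟩ := hface y hy
    set r := ‖pt p x‖ with hr
    set s := ‖pt p y‖ with hs
    have hr0 : 0 < r := norm_pos_iff.mpr (hne x hx)
    have hs0 : 0 < s := norm_pos_iff.mpr (hne y hy)
    have h2 : ∀ k, r⁻¹ * (∑ w, x w * p w k) = s⁻¹ * (∑ w, y w * p w k) := fun k => by
      have := congrArg (fun z : EuclideanSpace ℝ (Fin d) => z k) h1
      simpa [pt] using this
    have h3 : ∀ c : ι, r⁻¹ * ∑ k, L c k * (∑ w, x w * p w k) =
        s⁻¹ * ∑ k, L c k * (∑ w, y w * p w k) := by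
      intro c
      rw [Finset.mul_sum, Finset.mul_sum]
      refine Finset.sum_congr rfl fun k _ => ?_
      have := h2 k
      calc r⁻¹ * (L c k * ∑ w, x w * p w k) = L c k * (r⁻¹ * ∑ w, x w * p w k) := by ring
        _ = L c k * (s⁻¹ * ∑ w, y w * p w k) := by rw [this]
        _ = _ := by ring
    have e1 := h3 a
    rw [h.eval_on a x ha, hx.2.1] at e1
    have e2 := h3 b
    rw [h.eval_on b y hb, hy.2.1] at e2
    have l1 := h.eval_le a y hy.1
    rw [hy.2.1] at l1
    have l2 := h.eval_le b x hx.1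
    rw [hx.2.1] at l2
    have hrs : r⁻¹ = s⁻¹ := by
      have hr1 : 0 < r⁻¹ := inv_pos.mpr hr0
      have hs1 : 0 < s⁻¹ := inv_pos.mpr hs0
      apply le_antisymm
      · nlinarith
      · nlinarith
    have hr1 : 0 < r⁻¹ := inv_pos.mpr hr0
    have hya : ∀ w, w ∉ F a → y w = 0 := by
      apply h.eval_eq a y hy.1
      rw [hy.2.1]
      rw [hrs] at e1
      have : s⁻¹ ≠ 0 := by rw [← hrs]; exact hr1.ne'
      exact (mul_left_cancel₀ this e1).symm
    have h4 := h.unique a (x - y) (fun w hw => by
      rw [Pi.sub_apply, ha w hw, hya w hw, sub_zero]) (fun k => by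
      simp only [Pi.sub_apply, sub_mul, Finset.sum_sub_distrib]
      have := h2 k
      rw [hrs] at this
      have h5 : s⁻¹ ≠ 0 := by rw [← hrs]; exact hr1.ne'
      rw [mul_left_cancel₀ h5 this, sub_self])
    apply Subtype.ext
    exact sub_eq_zero.mp h4
  have hsurj : Function.Surjective f := by
    rintro ⟨y, hy⟩
    rw [mem_sphere_zero_iff_norm] at hy
    obtain ⟨a, ha⟩ := Finite.exists_max (fun a : ι => ∑ k, L a k * y k)
    obtain ⟨x, hx0, hx⟩ := h.span_facet a (fun k => y k)
    have hxnn : ∀ v, 0 ≤ x v := by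
      intro v
      by_cases hv : v ∈ F a
      · have h1 := h.diff_apply a v hv x hx0
        simp only [hx] at h1
        have h2 := ha (nb a v)
        simp only [sub_mul, Finset.sum_sub_distrib] at h1
        have h3 := h.neg a v hv
        by_contra hlt
        push Not at hlt
        nlinarith
      · rw [hx0 v hv]
    have hsum : 0 < ∑ v, x v := by
      rcases (Finset.sum_nonneg (fun v _ => hxnn v)).lt_or_eq with h1 | h1
      · exact h1
      · exfalso
        have h2 := (Finset.sum_eq_zero_iff_of_nonneg (fun v _ => hxnn v)).mp h1.symm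
        have h3 : y = 0 := by
          ext k
          rw [← hx k]
          simp only [PiLp.zero_apply]
          exact Finset.sum_eq_zero fun w _ => by rw [h2 w (Finset.mem_univ _), zero_mul]
        rw [h3, norm_zero] at hy
        exact zero_ne_one hy
    set c := ∑ v, x v with hc
    have hmem : (fun v => c⁻¹ * x v) ∈ realization Δ := by
      refine ⟨fun v => mul_nonneg (inv_pos.mpr hsum).le (hxnn v), ?_, a, ?_⟩
      · rw [← Finset.mul_sum, ← hc, inv_mul_cancel₀ hsum.ne']
      · intro v hv
        by_contra hne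
        apply (Finset.mem_filter.mp hv).2
        show c⁻¹ * x v = 0
        rw [hx0 v hne, mul_zero]
    refine ⟨⟨_, hmem⟩, ?_⟩
    apply Subtype.ext
    have h1 : pt p (fun v => c⁻¹ * x v) = c⁻¹ • y := by
      ext k
      simp only [pt, PiLp.smul_apply, smul_eq_mul]
      rw [← hx k, Finset.mul_sum]
      exact Finset.sum_congr rfl fun w _ => by ring
    simp only [f]
    rw [h1, norm_smul, hy, mul_one, norm_inv, Real.norm_of_nonneg hsum.le, inv_inv, smul_smul,
      mul_inv_cancel₀ hsum.ne', one_smul]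
  have : CompactSpace (realization Δ) := isCompact_iff_compactSpace.mp (realization_compact F)
  exact ⟨Continuous.homeoOfEquivCompactToT2 (f := Equiv.ofBijective f ⟨hinj, hsurj⟩) hf⟩

end Pool.Agent.X51.Bal
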